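import Mathlib

/-!
# Infinitely many triples with three consecutive multiplicatively dependent shifts
-/

set_option autoImplicit false

namespace Pool.Agent.Results.MP_0e3340_nt.InfinitelyMany

/-- The integers `x, y, z` are multiplicatively dependent: `x ^ k₁ * y ^ k₂ * z ^ k₃ = 1` for some
integers `k₁, k₂, k₃`, not all zero. -/
def MulDep (x y z : ℤ) : Prop :=
  ∃ k₁ k₂ k₃ : ℤ, ¬ (k₁ = 0 ∧ k₂ = 0 ∧ k₃ = 0) ∧
    (x : ℚ) ^ k₁ * (y : ℚ) ^ k₂ * (z : ℚ) ^ k₃ = 1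

/-- Admissible triples `(a, b, c)`: the entries are pairwise distinct and larger than 1, not both
of 2 and 8 are among them, and the triples `(a, b, c) + i`, `i = 0, 1, 2`, are each
multiplicatively dependent. -/
def Admissible (a b c : ℤ) : Prop :=
  (1 < a ∧ 1 < b ∧ 1 < c) ∧ (a ≠ b ∧ a ≠ c ∧ b ≠ c) ∧
    ¬ ((2 : ℤ) ∈ ({a, b, c} : Set ℤ) ∧ (8 : ℤ) ∈ ({a, b, c} : Set ℤ)) ∧
    MulDep a b c ∧ MulDep (a + 1) (b + 1) (c + 1) ∧ MulDep (a + 2) (b + 2) (c + 2)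

lemma family (k : ℕ) :
    Admissible 2 (2 ^ (k + 3) - 2) (2 ^ (k + 3) * (2 ^ (k + 3) - 2)) := by
  have h8 : (8 : ℤ) ≤ 2 ^ (k + 3) := by
    have : (1 : ℤ) ≤ 2 ^ k := one_le_pow₀ (by norm_num)
    rw [pow_add]; linarith
  set q : ℤ := 2 ^ (k + 3) with hq
  have hq4 : q * (q - 2) = q ^ 2 - 2 * q := by ring
  refine ⟨⟨by norm_num, by linarith, by nlinarith⟩, ⟨by linarith, ?_, ?_⟩, ?_, ?_, ?_, ?_⟩
  · nlinarith
  · intro h; nlinarith
  · rintro ⟨-, h⟩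
    simp only [Set.mem_insert_iff, Set.mem_singleton_iff] at h
    rcases h with h | h | h
    · norm_num at h
    · -- `q = 10` is not a power of two
      have h10 : q = 10 := by linarith
      have h1 : (2 : ℤ) ^ (k + 3) = 2 * 5 := by rw [← hq, h10]; norm_num
      have h2 : (2 : ℤ) ^ (k + 2) = 5 := by
        have : (2 : ℤ) ^ (k + 3) = 2 * 2 ^ (k + 2) := by ring
        linarith
      have h3 : (2 : ℤ) ^ (k + 2) = 2 * 2 ^ (k + 1) := by ring
      omega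
    · nlinarith
  · refine ⟨k + 3, 1, -1, by omega, ?_⟩
    have hb : ((q - 2 : ℤ) : ℚ) ≠ 0 := by
      have : q - 2 ≠ 0 := by linarith
      exact_mod_cast this
    have hqq : (q : ℚ) = 2 ^ (k + 3) := by rw [hq]; push_cast; rfl
    have hq0 : (q : ℚ) ≠ 0 := by rw [hqq]; positivity
    rw [zpow_one, zpow_neg_one]
    have e : ((2 : ℤ) : ℚ) ^ ((k : ℤ) + 3) = q := by
      rw [hqq]
      have : ((k : ℤ) + 3) = ((k + 3 : ℕ) : ℤ) := by push_cast; ring
      rw [this, zpow_natCast]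
      norm_num
    rw [e]
    rw [Int.cast_mul]
    field_simp
  · refine ⟨0, 2, -1, by omega, ?_⟩
    have h1 : ((q * (q - 2) + 1 : ℤ) : ℚ) = ((q - 2 + 1 : ℤ) : ℚ) ^ 2 := by
      push_cast; ring
    have hb : ((q - 2 + 1 : ℤ) : ℚ) ≠ 0 := by
      have : q - 2 + 1 ≠ 0 := by linarith
      exact_mod_cast this
    rw [zpow_zero, one_mul, zpow_neg_one, h1]
    have h2 : ((q - 2 + 1 : ℤ) : ℚ) ^ (2 : ℤ) = ((q - 2 + 1 : ℤ) : ℚ) ^ 2 := by
      norm_cast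
    rw [h2]
    exact mul_inv_cancel₀ (pow_ne_zero 2 hb)
  · refine ⟨k + 3, -2, 0, by omega, ?_⟩
    have hqq : (q : ℚ) = 2 ^ (k + 3) := by rw [hq]; push_cast; rfl
    have hq0 : (q : ℚ) ≠ 0 := by rw [hqq]; positivity
    have e : ((2 + 2 : ℤ) : ℚ) ^ ((k : ℤ) + 3) = (q : ℚ) ^ 2 := by
      rw [hqq]
      have : ((k : ℤ) + 3) = ((k + 3 : ℕ) : ℤ) := by push_cast; ring
      rw [this, zpow_natCast, ← pow_mul, mul_comm (k + 3) 2, pow_mul]
      norm_num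
    have e2 : ((q - 2 + 2 : ℤ) : ℚ) = q := by push_cast; ring
    rw [e, e2, zpow_zero, mul_one, zpow_neg]
    have h2 : (q : ℚ) ^ (2 : ℤ) = (q : ℚ) ^ 2 := by norm_cast
    rw [h2]
    exact mul_inv_cancel₀ (pow_ne_zero 2 hq0)

/-- **Theorem.** There are infinitely many admissible triples `(a, b, c)` with `a < b < c`. -/
theorem result : {t : ℤ × ℤ × ℤ | t.1 < t.2.1 ∧ t.2.1 < t.2.2 ∧
    Admissible t.1 t.2.1 t.2.2}.Infinite := by
  refine Set.infinite_of_injective_forall_mem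
    (f := fun k : ℕ => ((2 : ℤ), (2 : ℤ) ^ (k + 3) - 2, (2 : ℤ) ^ (k + 3) * (2 ^ (k + 3) - 2)))
    ?_ ?_
  · intro k l h
    have h1 := congrArg (fun t : ℤ × ℤ × ℤ => t.2.1) h
    simp only at h1
    have h2 : (2 : ℤ) ^ (k + 3) = 2 ^ (l + 3) := by linarith
    have h3 := pow_right_injective₀ (a := (2 : ℤ)) (by norm_num) (by norm_num) h2
    omega
  · intro k
    have h8 : (8 : ℤ) ≤ 2 ^ (k + 3) := by
      have : (1 : ℤ) ≤ 2 ^ k := one_le_pow₀ (by norm_num)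
      rw [pow_add]; linarith
    refine ⟨?_, ?_, family k⟩
    · dsimp only; linarith
    · dsimp only; nlinarith

end Pool.Agent.Results.MP_0e3340_nt.InfinitelyMany
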